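import Pool.Agent.PFC.StmtsB1

/-!
Squad PFC, row PEN (helper86).
-/

namespace Pool.Agent.Helper86_PFC

open Pool.Agent.PFC.B1 MulOpposite

section
variable {R Γ P : Type} [CommRing R] [Ring Γ] [Algebra R Γ] [AddCommGroup P] [Module R P]
  (B : BiM R Γ P) (β : P →ₗ[R] P →ₗ[R] Γ × P)

theorem mu_add_left (x x' y : Γ × P) : B.mu β (x + x') y = B.mu β x y + B.mu β x' y := by
  unfold BiM.mu
  have e : (((x + x').1 * y.1, B.lm (x + x').1 y.2 + B.rm (op y.1) (x + x').2) : Γ × P) =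
      (x.1 * y.1, B.lm x.1 y.2 + B.rm (op y.1) x.2) +
        (x'.1 * y.1, B.lm x'.1 y.2 + B.rm (op y.1) x'.2) := by
    apply Prod.ext
    · simp [add_mul]
    · simp only [Prod.fst_add, Prod.snd_add, map_add, LinearMap.add_apply]
      abel
  rw [e, Prod.snd_add, map_add, LinearMap.add_apply]
  abel

theorem mu_add_right (x y y' : Γ × P) : B.mu β x (y + y') = B.mu β x y + B.mu β x y' := by
  unfold BiM.mu
  have e : ((x.1 * (y + y').1, B.lm x.1 (y + y').2 + B.rm (op (y + y').1) x.2) : Γ × P) =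
      (x.1 * y.1, B.lm x.1 y.2 + B.rm (op y.1) x.2) +
        (x.1 * y'.1, B.lm x.1 y'.2 + B.rm (op y'.1) x.2) := by
    apply Prod.ext
    · simp [mul_add]
    · simp only [Prod.fst_add, Prod.snd_add, map_add, LinearMap.add_apply, op_add]
      abel
  rw [e, Prod.snd_add, map_add]
  abel

theorem mu_sub_left (x x' y : Γ × P) : B.mu β (x - x') y = B.mu β x y - B.mu β x' y := by
  have h := mu_add_left B β (x - x') x' y
  rw [sub_add_cancel] at h
  rw [h]; abel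

theorem mu_sub_right (x y y' : Γ × P) : B.mu β x (y - y') = B.mu β x y - B.mu β x y' := by
  have h := mu_add_right B β x (y - y') y'
  rw [sub_add_cancel] at h
  rw [h]; abel

theorem la_add (γ : Γ) (x y : Γ × P) : B.la γ (x + y) = B.la γ x + B.la γ y := by
  unfold BiM.la
  apply Prod.ext
  · simp [mul_add]
  · simp [map_add]

theorem la_sub (γ : Γ) (x y : Γ × P) : B.la γ (x - y) = B.la γ x - B.la γ y := by
  have h := la_add B γ (x - y) y
  rw [sub_add_cancel] at h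
  rw [h]; abel

theorem ra_add (γ : Γ) (x y : Γ × P) : B.ra (x + y) γ = B.ra x γ + B.ra y γ := by
  unfold BiM.ra
  apply Prod.ext
  · simp [add_mul]
  · simp [map_add]

theorem ra_sub (γ : Γ) (x y : Γ × P) : B.ra (x - y) γ = B.ra x γ - B.ra y γ := by
  have h := ra_add B γ (x - y) y
  rw [sub_add_cancel] at h
  rw [h]; abel

theorem mu_g_left (γ : Γ) (y : Γ × P) : B.mu β (γ, 0) y = B.la γ y := by
  unfold BiM.mu BiM.la
  simp

theorem mu_g_right (γ : Γ) (x : Γ × P) : B.mu β x (γ, 0) = B.ra x γ := by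
  unfold BiM.mu BiM.ra
  simp

variable {B β}

theorem mu_la (hB : B.Bal β) (γ : Γ) (x y : Γ × P) :
    B.mu β (B.la γ x) y = B.la γ (B.mu β x y) := by
  unfold BiM.mu
  rw [la_add]
  have h1 : β (B.la γ x).2 y.2 = B.la γ (β x.2 y.2) := hB.1 γ x.2 y.2
  rw [h1]
  refine congrArg (· + B.la γ (β x.2 y.2)) ?_
  unfold BiM.la
  apply Prod.ext
  · show γ * x.1 * y.1 = γ * (x.1 * y.1)
    rw [mul_assoc]
  · show B.lm (γ * x.1) y.2 + B.rm (op y.1) (B.lm γ x.2) =
      B.lm γ (B.lm x.1 y.2 + B.rm (op y.1) x.2)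
    rw [map_mul, map_add, ← B.comm]; rfl

theorem mu_ra_la (hB : B.Bal β) (γ : Γ) (x y : Γ × P) :
    B.mu β (B.ra x γ) y = B.mu β x (B.la γ y) := by
  unfold BiM.mu
  have h1 : β (B.ra x γ).2 y.2 = β x.2 (B.la γ y).2 := hB.2.1 γ x.2 y.2
  rw [h1]
  refine congrArg (· + β x.2 (B.la γ y).2) ?_
  unfold BiM.la BiM.ra
  apply Prod.ext
  · show x.1 * γ * y.1 = x.1 * (γ * y.1)
    rw [mul_assoc]
  · show B.lm (x.1 * γ) y.2 + B.rm (op y.1) (B.rm (op γ) x.2) =
      B.lm x.1 (B.lm γ y.2) + B.rm (op (γ * y.1)) x.2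
    rw [map_mul, op_mul, map_mul]; rfl

theorem mu_ra (hB : B.Bal β) (γ : Γ) (x y : Γ × P) :
    B.mu β x (B.ra y γ) = B.ra (B.mu β x y) γ := by
  unfold BiM.mu
  rw [ra_add]
  have h1 : β x.2 (B.ra y γ).2 = B.ra (β x.2 y.2) γ := hB.2.2 γ x.2 y.2
  rw [h1]
  refine congrArg (· + B.ra (β x.2 y.2) γ) ?_
  unfold BiM.ra
  apply Prod.ext
  · show x.1 * (y.1 * γ) = x.1 * y.1 * γ
    rw [mul_assoc]
  · show B.lm x.1 (B.rm (op γ) y.2) + B.rm (op (y.1 * γ)) x.2 =
      B.rm (op γ) (B.lm x.1 y.2 + B.rm (op y.1) x.2)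
    rw [map_add, ← B.comm, op_mul, map_mul]; rfl

end

/-- PEN. -/
theorem pen : PenStmt := by
  intro R Γ P _ _ _ _ _ B β hB
  refine ⟨?_, ?_, ?_, ?_, ?_, ?_, ?_, ?_⟩
  · intro γ y z
    unfold BiM.as
    rw [mu_g_left, mu_g_left, mu_la hB, sub_self]
  · intro γ x z
    unfold BiM.as
    rw [mu_g_left, mu_g_right, mu_ra_la hB, sub_self]
  · intro γ x y
    unfold BiM.as
    rw [mu_g_right, mu_g_right, mu_ra hB, sub_self]
  · intro γ x y z
    unfold BiM.as
    rw [mu_la hB, mu_la hB, mu_la hB, la_sub]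
  · intro γ x y z
    unfold BiM.as
    rw [mu_ra_la hB, mu_ra_la hB, mu_la hB]
  · intro γ x y z
    unfold BiM.as
    rw [mu_ra hB, mu_ra_la hB, mu_ra_la hB]
  · intro γ x y z
    unfold BiM.as
    rw [mu_ra hB, mu_ra hB, mu_ra hB, ra_sub]
  · intro x y z u
    unfold BiM.as
    rw [mu_sub_left, mu_sub_right]
    abel

end Pool.Agent.Helper86_PFC
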