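import Pool.Agent.PFC.StmtsB3

/-!
Squad PFC, row NRM (helper86).
-/

namespace Pool.Agent.Helper86_PFC

open Pool.Agent.PFC.B3 MvPolynomial

/-- NRM. -/
theorem nrm : NrmStmt := by
  intro k I E Λ _ _ _ _ _ _ q p c η P i
  classical
  have jC : ∀ a : k, P.j (MvPolynomial.C a) = algebraMap k Λ a := fun a =>
    P.j.commutes a
  let ε' : E →* Λ :=
    { toFun := fun e => (((η i e)⁻¹ : kˣ) : k) • P.ε e
      map_one' := by rw [map_one, map_one, inv_one, Units.val_one, one_smul]
      map_mul' := fun a b => by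
        rw [map_mul, map_mul, mul_inv, Units.val_mul, smul_mul_smul_comm] }
  have hε' : ∀ e, ε' e = (((η i e)⁻¹ : kˣ) : k) • P.ε e := fun e => rfl
  obtain ⟨h, h1, h2⟩ := P.up Λ (P.j : MvPolynomial I k →+* Λ) ε' (by
      intro i'
      show P.j (X i') ^ q i' = P.j (C (c i')) * P.j (X (p i'))
      rw [P.rel, jC, Algebra.smul_def]) (by
      intro e i'
      show ε' e * P.j (X i') = P.j (C (η i' e : k)) * P.j (X i') * ε' e
      rw [hε', jC, smul_mul_assoc, P.cm, mul_smul_comm, ← Algebra.smul_def, smul_mul_assoc,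
        smul_comm]
      ) (by
      intro e a
      show ε' e * P.j (C a) = P.j (C a) * ε' e
      rw [jC]; exact (Algebra.commutes a (ε' e)).symm)
  have h1' : ∀ f, h (P.j f) = P.j f := h1
  have hs : ∀ (a : k) (z : Λ), h (a • z) = a • h z := by
    intro a z
    rw [Algebra.smul_def, map_mul, ← jC, h1', jC, ← Algebra.smul_def]
  have hb : ∀ α e, h (P.b (α, e)) = (((η i e)⁻¹ : kˣ) : k) • P.b (α, e) := by
    intro α e
    rw [P.hb, map_mul, h1', h2, hε', mul_smul_comm]
  have := Fintype.ofFinite E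
  refine ⟨h, ?_, ?_⟩
  · intro z
    refine ⟨∑ y, P.b.repr z y • ((η i y.2 : k) • P.b y), ?_⟩
    rw [map_sum]
    conv_rhs => rw [← P.b.sum_repr z]
    refine Finset.sum_congr rfl fun y _ => ?_
    obtain ⟨α, e⟩ := y
    rw [hs, hs, hb, smul_smul (η i e : k), ← Units.val_mul, mul_inv_cancel, Units.val_one, one_smul]
  · intro a
    have key : ∀ y, P.j (X i) * P.b y = h (P.b y) * P.j (X i) := by
      rintro ⟨α, e⟩
      rw [hb, P.hb, smul_mul_assoc, mul_assoc, P.cm, mul_smul_comm, smul_smul, ← Units.val_mul,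
        inv_mul_cancel, Units.val_one, one_smul, ← mul_assoc, ← mul_assoc, ← map_mul, ← map_mul,
        mul_comm (X i)]
    conv_lhs => rw [← P.b.sum_repr a]
    conv_rhs => rw [← P.b.sum_repr a]
    rw [Finset.mul_sum, map_sum, Finset.sum_mul]
    refine Finset.sum_congr rfl fun y _ => ?_
    rw [mul_smul_comm, key, hs, smul_mul_assoc]

end Pool.Agent.Helper86_PFC
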